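import Pool.Agent.Helper79.GL4.GoalsB

/-!
# Packet SPEC1 (MP_27a5f8_al): the multiplicity formula
-/

set_option autoImplicit false

open Finset Matrix

namespace Pool.Agent.Helper17.GL4

/-- trace of an idempotent real matrix is a natural number -/
lemma trace_idem {Om : Type} [Fintype Om] [DecidableEq Om] (e : Matrix Om Om ℝ)
    (h : e * e = e) : ∃ mu : ℕ, e.trace = mu := by
  have h1 : IsIdempotentElem (Matrix.toLin' e) := by
    unfold IsIdempotentElem
    rw [Module.End.mul_eq_comp, ← Matrix.toLin'_mul, h]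
  refine ⟨Module.finrank ℝ (LinearMap.range (Matrix.toLin' e)), ?_⟩
  have h2 := LinearMap.IsProj.trace (LinearMap.IsIdempotentElem.isProj_range _ h1)
  rw [← h2, Matrix.trace_toLin'_eq]

theorem spec1 : _root_.GL4.SPEC1 := by
  intro q k hq hk Om _ _ M hcard hsym h0 hk1 hdiag hrec hJ a hak hab
  have hqr : (2 : ℝ) ≤ (q : ℝ) := by exact_mod_cast hq
  have hq0 : (q : ℝ) ≠ 0 := by positivity
  set b : ℝ := (_root_.GL4.br q 3 : ℝ) with hb
  set r : ℝ := ((q : ℝ)⁻¹) ^ 2 with hr
  have hrq : r * (q : ℝ) ^ 2 = 1 := by rw [hr]; field_simp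
  have hr0 : 0 ≤ r := by rw [hr]; positivity
  set N : Matrix Om Om ℝ := M (k - 1) with hN
  set A : ℕ → Matrix Om Om ℝ := fun j => M (k - j) with hA
  set f : ℕ → ℝ := _root_.GL4.ff (q : ℝ) a with hf
  have hf0 : f 0 = 1 := rfl
  have hf1 : f 1 = a := rfl
  have hf2 : ∀ j, f (j + 2) = (a - q) * f (j + 1) - (q : ℝ) ^ 2 * f j := fun j => rfl
  have hA0 : A 0 = 1 := hk1
  have hA1 : A 1 = N := rfl
  have hAk : A k = M 0 := by simp [hA]
  have hAsym : ∀ j, (A j)ᵀ = A j := fun j => hsym _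
  -- recursion
  have hrecA : ∀ j, j + 2 ≤ k → A (j + 1) * N = A (j + 2) + (q : ℝ) • A (j + 1) + ((q : ℝ) ^ 2) • A j := by
    intro j hj
    have h1 := hrec (k - (j + 1)) (by omega) (by omega)
    have e1 : k - (j + 1) - 1 = k - (j + 2) := by omega
    have e2 : k - (j + 1) + 1 = k - j := by omega
    rw [e1, e2] at h1
    exact h1
  have hrecB : ∀ j, j + 2 ≤ k → N * A (j + 1) = A (j + 2) + (q : ℝ) • A (j + 1) + ((q : ℝ) ^ 2) • A j := by
    intro j hj
    have h1 := congrArg Matrix.transpose (hrecA j hj)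
    have h2 : Nᵀ = N := hsym _
    rw [Matrix.transpose_mul, Matrix.transpose_add, Matrix.transpose_add, Matrix.transpose_smul,
      Matrix.transpose_smul, hAsym (j + 2), hAsym (j + 1), hAsym j, h2] at h1
    exact h1
  -- Christoffel-Darboux
  have hCD : ∀ n, n + 1 ≤ k → (N - a • (1 : Matrix Om Om ℝ)) *
      (∑ j ∈ range (n + 1), (r ^ j * f j) • A j) =
        r ^ n • (f n • A (n + 1) - f (n + 1) • A n) := by
    intro n
    induction n with
    | zero =>
      intro _
      simp [hA0, hA1, hf0, hf1]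
    | succ n ih =>
      intro hn
      rw [Finset.sum_range_succ, mul_add, ih (by omega)]
      have h1 : (N - a • (1 : Matrix Om Om ℝ)) * ((r ^ (n + 1) * f (n + 1)) • A (n + 1)) =
          (r ^ (n + 1) * f (n + 1)) • (A (n + 2) + (q : ℝ) • A (n + 1) + ((q : ℝ) ^ 2) • A n
            - a • A (n + 1)) := by
        rw [mul_smul_comm, sub_mul, hrecB n (by omega), smul_mul_assoc, one_mul]
      rw [h1, hf2 n]
      have h3 : r ^ n * f (n + 1) = r ^ (n + 1) * f (n + 1) * (q : ℝ) ^ 2 := by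
        rw [pow_succ]
        calc r ^ n * f (n + 1) = r ^ n * f (n + 1) * 1 := by ring
          _ = r ^ n * f (n + 1) * (r * (q : ℝ) ^ 2) := by rw [hrq]
          _ = _ := by ring
      have h4 : r ^ n * f n = r ^ (n + 1) * ((q : ℝ) ^ 2 * f n) := by
        rw [pow_succ]
        calc r ^ n * f n = r ^ n * f n * 1 := by ring
          _ = r ^ n * f n * (r * (q : ℝ) ^ 2) := by rw [hrq]
          _ = _ := by ring
      ext x y
      simp only [Matrix.add_apply, Matrix.smul_apply, Matrix.sub_apply, smul_eq_mul]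
      have e1 : n + 1 + 1 = n + 2 := rfl
      linear_combination (A (n + 1) x y) * h4 - (A n x y) * h3
  -- the matrix E
  obtain ⟨m, rfl⟩ : ∃ m, k = m + 1 := ⟨k - 1, by omega⟩
  have hm1 : m + 1 - 1 = m := by omega
  set P : Matrix Om Om ℝ := ∑ j ∈ range (m + 1), (r ^ j * f j) • A j with hP
  set κ : ℝ := r ^ m * f m / (b - a) with hκ
  have hba : b - a ≠ 0 := sub_ne_zero.mpr (fun h => hab h.symm)
  have hPeq : (N - a • (1 : Matrix Om Om ℝ)) * P = (r ^ m * f m) • M 0 := by
    rw [hP, hCD m le_rfl, hAk]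
    have : f (m + 1) = 0 := hak
    rw [this]
    simp [smul_smul]
  set E : Matrix Om Om ℝ := P - κ • M 0 with hE
  have hNE : N * E = a • E := by
    have h1 : (N - a • (1 : Matrix Om Om ℝ)) * E = 0 := by
      rw [hE, mul_sub, hPeq, mul_smul_comm, sub_mul, hJ, smul_mul_assoc, one_mul, ← sub_smul,
        smul_smul, hκ, div_mul_cancel₀ _ hba, sub_self]
    rw [sub_mul, smul_mul_assoc, one_mul, sub_eq_zero] at h1
    exact h1
  have hAE : ∀ j, j + 1 ≤ m + 1 → A j * E = f j • E ∧ A (j + 1) * E = f (j + 1) • E := by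
    intro j
    induction j with
    | zero =>
      intro _
      refine ⟨?_, ?_⟩
      · rw [hA0, hf0, one_mul, one_smul]
      · show A 1 * E = f 1 • E
        rw [hA1, hf1, hNE]
    | succ j ih =>
      intro hj
      obtain ⟨h1, h2⟩ := ih (by omega)
      refine ⟨h2, ?_⟩
      have h3 := hrecA j (by omega)
      have h4 : A (j + 2) = A (j + 1) * N - (q : ℝ) • A (j + 1) - ((q : ℝ) ^ 2) • A j := by
        rw [h3]; abel
      show A (j + 2) * E = f (j + 2) • E
      rw [h4, hf2, sub_mul, sub_mul, mul_assoc, hNE, mul_smul_comm, smul_mul_assoc,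
        smul_mul_assoc, h1, h2]
      rw [smul_smul, smul_smul, smul_smul, ← sub_smul, ← sub_smul]
      congr 1
      ring
  have hJE : M 0 * E = 0 := by
    have h1 := (hAE m le_rfl).2
    rw [hAk] at h1
    have h2 : f (m + 1) = 0 := hak
    rw [h1, h2, zero_smul]
  set Z : ℝ := ∑ j ∈ range (m + 1), r ^ j * f j ^ 2 with hZ
  have hZpos : 0 < Z := by
    rw [hZ, Finset.sum_range_succ']
    have h1 : 0 ≤ ∑ j ∈ range m, r ^ (j + 1) * f (j + 1) ^ 2 :=
      Finset.sum_nonneg (fun j _ => by positivity)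
    have h2 : r ^ 0 * f 0 ^ 2 = 1 := by rw [hf0]; norm_num
    rw [h2]
    linarith
  have hPE : P * E = Z • E := by
    rw [hP, Finset.sum_mul, hZ, Finset.sum_smul]
    refine Finset.sum_congr rfl (fun j hj => ?_)
    rw [Finset.mem_range] at hj
    rw [smul_mul_assoc, (hAE j (by omega)).1, smul_smul]
    congr 1
    ring
  have hEE : E * E = Z • E := by
    have h1 : E * E = P * E - κ • (M 0 * E) := by
      conv_lhs => rw [hE]
      rw [sub_mul, smul_mul_assoc]
    rw [h1, hPE, hJE, smul_zero, sub_zero]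
  obtain ⟨mu, hmu⟩ := trace_idem (Z⁻¹ • E) (by
    rw [smul_mul_assoc, mul_smul_comm, hEE, smul_smul, smul_smul]
    congr 1
    field_simp)
  refine ⟨mu, ?_⟩
  rw [Matrix.trace_smul, smul_eq_mul] at hmu
  have htr : E.trace = Z * mu := by
    rw [← hmu]; field_simp
  have hcardr : (Fintype.card Om : ℝ) = _root_.GL4.br q (2 * (m + 1) + 1) := by exact_mod_cast hcard
  have htrM : ∀ i ≤ m + 1, (M i).trace = (_root_.GL4.br q (2 * (m + 1) + 1) : ℝ) := by
    intro i hi
    unfold Matrix.trace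
    simp only [Matrix.diag_apply]
    rw [Finset.sum_congr rfl (fun x _ => hdiag i hi x), Finset.sum_const, Finset.card_univ,
      nsmul_eq_mul, mul_one, hcardr]
  have htrE : E.trace = (_root_.GL4.br q (2 * (m + 1) + 1) : ℝ) *
      (∑ j ∈ range (m + 1), r ^ j * f j - κ) := by
    rw [hE, Matrix.trace_sub, hP, Matrix.trace_sum, Matrix.trace_smul, smul_eq_mul,
      htrM 0 (by omega)]
    have h1 : ∑ j ∈ range (m + 1), ((r ^ j * f j) • A j).trace =
        ∑ j ∈ range (m + 1), (r ^ j * f j) * (_root_.GL4.br q (2 * (m + 1) + 1) : ℝ) := by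
      refine Finset.sum_congr rfl (fun j _ => ?_)
      rw [Matrix.trace_smul, smul_eq_mul]
      congr 1
      exact htrM _ (by omega)
    rw [h1, ← Finset.sum_mul]
    ring
  have hpow : ∀ j : ℕ, ((q : ℝ)⁻¹) ^ (2 * j) = r ^ j := fun j => by rw [hr, pow_mul]
  simp only [hpow]
  rw [hm1]
  have hfin : Z * mu = (_root_.GL4.br q (2 * (m + 1) + 1) : ℝ) *
      (∑ j ∈ range (m + 1), r ^ j * f j - κ) := by rw [← htr, htrE]
  exact hfin

end Pool.Agent.Helper17.GL4
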